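import Mathlib

/-!
# Contact algebras of regular closed sets and clan spaces of graphs
-/

set_option autoImplicit false
set_option linter.unusedVariables false
set_option linter.unusedSectionVars false

open FirstOrder

namespace Pool.Agent.V11251.CA

/-- Function symbols `0, 1`, complement, `·`, `+`. -/
inductive CAFun : ℕ → Type
  | zero : CAFun 0
  | one : CAFun 0
  | compl : CAFun 1
  | meet : CAFun 2
  | join : CAFun 2

/-- The contact relation symbol. -/
inductive CARel : ℕ → Type
  | contact : CARel 2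

/-- The language of contact algebras. -/
def Lca : FirstOrder.Language.{0, 0} := ⟨CAFun, CARel⟩

/-- The regular closed subsets of a space. -/
def RC (X : Type) [TopologicalSpace X] : Type := {a : Set X // closure (interior a) = a}

section RC

variable {X : Type} [TopologicalSpace X]

theorem rc_of_open {U : Set X} (hU : IsOpen U) :
    closure (interior (closure U)) = closure U := by
  apply subset_antisymm
  · exact closure_minimal interior_subset isClosed_closure
  · exact closure_mono (hU.subset_interior_iff.2 subset_closure)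

theorem rc_closed (a : RC X) : IsClosed a.1 := by
  rw [← a.2]; exact isClosed_closure

/-- The empty set. -/
def rcZero : RC X := ⟨∅, by simp⟩
/-- The whole space. -/
def rcOne : RC X := ⟨Set.univ, by simp⟩
/-- The complement `Cl (X ∖ a)`. -/
def rcCompl (a : RC X) : RC X := ⟨closure a.1ᶜ, rc_of_open (rc_closed a).isOpen_compl⟩
/-- The meet `Cl (Int (a ∩ b))`. -/
def rcMeet (a b : RC X) : RC X := ⟨closure (interior (a.1 ∩ b.1)), rc_of_open isOpen_interior⟩
/-- The join `a ∪ b`. -/
def rcJoin (a b : RC X) : RC X := ⟨a.1 ∪ b.1, by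
  apply subset_antisymm
  · exact closure_minimal interior_subset ((rc_closed a).union (rc_closed b))
  · apply Set.union_subset
    · conv_lhs => rw [← a.2]
      exact closure_mono (interior_mono Set.subset_union_left)
    · conv_lhs => rw [← b.2]
      exact closure_mono (interior_mono Set.subset_union_right)⟩

/-- The standard contact algebra of regular closed sets of `X`, as a first-order structure. -/
instance rcStr : Lca.Structure (RC X) where
  funMap := fun f v => match f, v with
    | CAFun.zero, _ => rcZero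
    | CAFun.one, _ => rcOne
    | CAFun.compl, v => rcCompl (v 0)
    | CAFun.meet, v => rcMeet (v 0) (v 1)
    | CAFun.join, v => rcJoin (v 0) (v 1)
  RelMap := fun R v => match R, v with
    | CARel.contact, v => ((v 0).1 ∩ (v 1).1).Nonempty

/-- Clans of the contact algebra `RC(X)`. -/
structure IsClan (Γ : Set (RC X)) : Prop where
  one_mem : rcOne ∈ Γ
  zero_not_mem : rcZero ∉ Γ
  join_mem : ∀ a b, rcJoin a b ∈ Γ ↔ a ∈ Γ ∨ b ∈ Γ
  contact : ∀ a ∈ Γ, ∀ b ∈ Γ, (a.1 ∩ b.1).Nonempty

end RC

/-! ### the contact algebra of a graph -/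

section graph

variable {V : Type} (E : V → V → Prop)

/-- two sets are in contact if they meet or are joined by an edge -/
def conn (x y : Set V) : Prop := ∃ s ∈ x, ∃ t ∈ y, s = t ∨ E s t

/-- clans of the algebra `P(V)` -/
structure Clan where
  carrier : Set (Set V)
  univ_mem : Set.univ ∈ carrier
  empty_not_mem : ∅ ∉ carrier
  union_mem : ∀ x y, x ∪ y ∈ carrier ↔ x ∈ carrier ∨ y ∈ carrier
  contact : ∀ x ∈ carrier, ∀ y ∈ carrier, conn E x y

variable {E}

theorem Clan.ext {Γ Δ : Clan E} (h : Γ.carrier = Δ.carrier) : Γ = Δ := by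
  cases Γ; cases Δ; cases h; rfl

theorem Clan.mono (Γ : Clan E) {x y : Set V} (h : x ⊆ y) (hx : x ∈ Γ.carrier) :
    y ∈ Γ.carrier := by
  rw [← Set.union_eq_self_of_subset_left h]
  exact (Γ.union_mem x y).2 (Or.inl hx)

variable (E)

/-- the closed set attached to a set of vertices -/
def hh (x : Set V) : Set (Clan E) := {Γ | x ∈ Γ.carrier}

/-- the topology of the clan space -/
instance clanTop : TopologicalSpace (Clan E) :=
  TopologicalSpace.generateFrom (Set.range fun x : Set V => (hh E x)ᶜ)

/-- the principal clan -/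
def prin (s : V) : Clan E where
  carrier := {x | s ∈ x}
  univ_mem := trivial
  empty_not_mem := fun h => h
  union_mem := fun x y => Iff.rfl
  contact := fun x hx y hy => ⟨s, hx, s, hy, Or.inl rfl⟩

/-- the clan of an edge -/
def pairClan (hE : ∀ s t, E s t → E t s) (s t : V) (h : s = t ∨ E s t) : Clan E where
  carrier := {x | s ∈ x ∨ t ∈ x}
  univ_mem := Or.inl trivial
  empty_not_mem := fun h => h.elim id id
  union_mem := fun x y => by
    simp only [Set.mem_setOf_eq, Set.mem_union]
    tauto
  contact := by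
    rintro x hx y hy
    rcases hx with hx | hx <;> rcases hy with hy | hy
    · exact ⟨s, hx, s, hy, Or.inl rfl⟩
    · exact ⟨s, hx, t, hy, h⟩
    · exact ⟨t, hx, s, hy, h.elim (fun e => Or.inl e.symm) (fun e => Or.inr (hE _ _ e))⟩
    · exact ⟨t, hx, t, hy, Or.inl rfl⟩

theorem basis : TopologicalSpace.IsTopologicalBasis (Set.range fun x : Set V => (hh E x)ᶜ) := by
  refine ⟨?_, ?_, rfl⟩
  · rintro _ ⟨x, rfl⟩ _ ⟨y, rfl⟩ Γ ⟨hx, hy⟩
    refine ⟨(hh E (x ∪ y))ᶜ, ⟨x ∪ y, rfl⟩, ?_, ?_⟩
    · intro h
      rcases (Γ.union_mem x y).1 h with h | h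
      · exact hx h
      · exact hy h
    · intro Δ hΔ
      exact ⟨fun h => hΔ ((Δ.union_mem x y).2 (Or.inl h)),
        fun h => hΔ ((Δ.union_mem x y).2 (Or.inr h))⟩
  · rw [Set.eq_univ_iff_forall]
    intro Γ
    exact ⟨_, ⟨∅, rfl⟩, Γ.empty_not_mem⟩

theorem isOpen_compl_hh (x : Set V) : IsOpen (hh E x)ᶜ := (basis E).isOpen ⟨x, rfl⟩

theorem isClosed_hh (x : Set V) : IsClosed (hh E x) := ⟨isOpen_compl_hh E x⟩

/-- closure of a union of basic open sets -/
theorem closure_union {ι : Type} (y : ι → Set V) :
    closure (⋃ j, (hh E (y j))ᶜ) = hh E (⋃ j, (y j)ᶜ) := by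
  apply subset_antisymm
  · apply closure_minimal _ (isClosed_hh E _)
    apply Set.iUnion_subset
    intro j Γ hΓ
    have h1 : y j ∪ (y j)ᶜ ∈ Γ.carrier := by
      rw [Set.union_compl_self]; exact Γ.univ_mem
    rcases (Γ.union_mem _ _).1 h1 with h | h
    · exact absurd h hΓ
    · exact Γ.mono (Set.subset_iUnion (fun j => (y j)ᶜ) j) h
  · intro Γ hΓ
    rw [(basis E).mem_closure_iff]
    rintro _ ⟨w, rfl⟩ hw
    have hns : ¬ (⋃ j, (y j)ᶜ) ⊆ w := fun hsub => hw (Γ.mono hsub hΓ)
    obtain ⟨s, hs, hsw⟩ := Set.not_subset.1 hns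
    obtain ⟨j, hj⟩ := Set.mem_iUnion.1 hs
    exact ⟨prin E s, hsw, Set.mem_iUnion.2 ⟨j, hj⟩⟩

theorem closure_compl_hh (x : Set V) : closure (hh E x)ᶜ = hh E xᶜ := by
  have := closure_union E (fun _ : Unit => x)
  rw [Set.iUnion_const, Set.iUnion_const] at this
  exact this

theorem rc_hh (x : Set V) : closure (interior (hh E x)) = hh E x := by
  have h1 : hh E x = closure (hh E xᶜ)ᶜ := by rw [closure_compl_hh, compl_compl]
  rw [h1]
  exact rc_of_open (isOpen_compl_hh E _)

/-- the map to regular closed sets -/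
def hRC (x : Set V) : RC (Clan E) := ⟨hh E x, rc_hh E x⟩

theorem hRC_injective : Function.Injective (hRC E) := by
  intro x y h
  have h1 : hh E x = hh E y := congrArg Subtype.val h
  ext s
  have h2 : prin E s ∈ hh E x ↔ prin E s ∈ hh E y := by rw [h1]
  exact h2

theorem open_eq_union (U : Set (Clan E)) (hU : IsOpen U) :
    ∃ (ι : Type) (y : ι → Set V), U = ⋃ j, (hh E (y j))ᶜ := by
  refine ⟨{x : Set V // (hh E x)ᶜ ⊆ U}, fun x => x.1, ?_⟩
  apply subset_antisymm
  · intro Γ hΓ
    obtain ⟨_, ⟨x, rfl⟩, hx, hxU⟩ := (basis E).exists_subset_of_mem_open hΓ hU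
    exact Set.mem_iUnion.2 ⟨⟨x, hxU⟩, hx⟩
  · exact Set.iUnion_subset fun x => x.2

theorem hRC_surjective : Function.Surjective (hRC E) := by
  intro a
  obtain ⟨ι, y, hy⟩ := open_eq_union E (interior a.1) isOpen_interior
  refine ⟨⋃ j, (y j)ᶜ, Subtype.ext ?_⟩
  show hh E _ = a.1
  rw [← closure_union, ← hy, a.2]

/-- the algebra `P(V)` as a first-order structure -/
@[reducible] def graphStr : Lca.Structure (Set V) where
  funMap := fun f v => match f, v with
    | CAFun.zero, _ => ∅
    | CAFun.one, _ => Set.univ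
    | CAFun.compl, v => (v 0)ᶜ
    | CAFun.meet, v => v 0 ∩ v 1
    | CAFun.join, v => v 0 ∪ v 1
  RelMap := fun R v => match R, v with
    | CARel.contact, v => conn E (v 0) (v 1)

theorem hh_union (x y : Set V) : hh E (x ∪ y) = hh E x ∪ hh E y := by
  ext Γ
  exact Γ.union_mem x y

theorem hh_meet (x y : Set V) : closure (interior (hh E x ∩ hh E y)) = hh E (x ∩ y) := by
  have h1 : interior (hh E x ∩ hh E y) = (hh E (xᶜ ∪ yᶜ))ᶜ := by
    rw [interior_inter, hh_union, Set.compl_union]
    congr 1
    · rw [interior_eq_compl_closure_compl, closure_compl_hh]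
    · rw [interior_eq_compl_closure_compl, closure_compl_hh]
  rw [h1, closure_compl_hh, Set.compl_union, compl_compl, compl_compl]

theorem contact_iff (hE : ∀ s t, E s t → E t s) (x y : Set V) :
    (hh E x ∩ hh E y).Nonempty ↔ conn E x y := by
  constructor
  · rintro ⟨Γ, hx, hy⟩
    exact Γ.contact x hx y hy
  · rintro ⟨s, hs, t, ht, h⟩
    exact ⟨pairClan E hE s t h, Or.inl hs, Or.inr ht⟩

/-- the isomorphism between `P(V)` and the regular closed sets of the clan space -/
noncomputable def iso (hE : ∀ s t, E s t → E t s) :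
    letI := graphStr E; (Set V) ≃[Lca] RC (Clan E) :=
  letI := graphStr E
  { toEquiv := Equiv.ofBijective (hRC E) ⟨hRC_injective E, hRC_surjective E⟩
    map_fun' := by
      intro n f v
      cases f with
      | zero => exact Subtype.ext (by ext Γ; exact ⟨fun h => Γ.empty_not_mem h, fun h => h.elim⟩)
      | one => exact Subtype.ext (by ext Γ; exact ⟨fun h => trivial, fun h => Γ.univ_mem⟩)
      | compl => exact Subtype.ext (closure_compl_hh E (v 0)).symm
      | meet => exact Subtype.ext (hh_meet E (v 0) (v 1)).symm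
      | join => exact Subtype.ext (hh_union E (v 0) (v 1))
    map_rel' := by
      intro n R v
      cases R with
      | contact => exact contact_iff E hE (v 0) (v 1) }

/-- every clan of the regular closed sets of the clan space is given by a point -/
theorem clan_realized (Γ : Set (RC (Clan E))) (hΓ : IsClan Γ) (hE : ∀ s t, E s t → E t s) :
    ∃ x : Clan E, Γ = {a | x ∈ a.1} := by
  let x : Clan E :=
    { carrier := {z | hRC E z ∈ Γ}
      univ_mem := by
        have : hRC E Set.univ = rcOne :=
          Subtype.ext (by ext Γ; exact ⟨fun h => trivial, fun h => Γ.univ_mem⟩)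
        show hRC E Set.univ ∈ Γ
        rw [this]
        exact hΓ.one_mem
      empty_not_mem := by
        have : hRC E ∅ = rcZero :=
          Subtype.ext (by ext Γ; exact ⟨fun h => Γ.empty_not_mem h, fun h => h.elim⟩)
        show ¬ hRC E ∅ ∈ Γ
        rw [this]
        exact hΓ.zero_not_mem
      union_mem := by
        intro z w
        have : hRC E (z ∪ w) = rcJoin (hRC E z) (hRC E w) := Subtype.ext (hh_union E z w)
        show hRC E (z ∪ w) ∈ Γ ↔ _
        rw [this]
        exact hΓ.join_mem _ _
      contact := fun z hz w hw => (contact_iff E hE z w).1 (hΓ.contact _ hz _ hw) }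
  refine ⟨x, ?_⟩
  ext a
  obtain ⟨z, rfl⟩ := hRC_surjective E a
  exact Iff.rfl

end graph

end Pool.Agent.V11251.CA
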