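import Pool.Agent.V11251.CA.Basic

/-!
# Types of tuples in the algebras of graphs
-/

set_option autoImplicit false
set_option linter.unusedVariables false
set_option linter.unusedSectionVars false

open FirstOrder

namespace Pool.Agent.V11251.CA

/-- the type space -/
def Tp : ℕ → ℕ → Type
  | 0, k => Set ((Fin k → Prop) × (Fin k → Prop))
  | r + 1, k => Set (Tp r (k + 1))

instance tp_finite : ∀ r k, Finite (Tp r k)
  | 0, k => inferInstanceAs (Finite (Set ((Fin k → Prop) × (Fin k → Prop))))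
  | r + 1, k => by
    haveI := tp_finite r (k + 1)
    exact inferInstanceAs (Finite (Set (Tp r (k + 1))))

section

variable {V : Type} (E : V → V → Prop)

/-- the trace of a point -/
def tr {k : ℕ} (x : Fin k → Set V) (s : V) : Fin k → Prop := fun i => s ∈ x i

/-- the type of a tuple -/
def tp : (r : ℕ) → {k : ℕ} → (Fin k → Set V) → Tp r k
  | 0, k, x => {p | ∃ s t, (s = t ∨ E s t) ∧ p = (tr x s, tr x t)}
  | r + 1, k, x => {τ | ∃ y : Set V, τ = tp r (Fin.snoc x y : Fin (k + 1) → Set V)}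

end

section two

variable {V W : Type} {E : V → V → Prop} {F : W → W → Prop}

theorem tp_eq_zero {k : ℕ} (x : Fin k → Set V) (x' : Fin k → Set W) :
    tp E 0 x = tp F 0 x' ↔ ∀ p, (∃ s t, (s = t ∨ E s t) ∧ p = (tr x s, tr x t)) ↔
      (∃ s t, (s = t ∨ F s t) ∧ p = (tr x' s, tr x' t)) := by
  show ({p | ∃ s t, (s = t ∨ E s t) ∧ p = (tr x s, tr x t)} :
    Set ((Fin k → Prop) × (Fin k → Prop))) =
    {p | ∃ s t, (s = t ∨ F s t) ∧ p = (tr x' s, tr x' t)} ↔ _
  rw [Set.ext_iff]
  exact Iff.rfl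

theorem tp_eq_succ {r k : ℕ} (x : Fin k → Set V) (x' : Fin k → Set W) :
    tp E (r + 1) x = tp F (r + 1) x' ↔
      (∀ y, ∃ y', tp E r (Fin.snoc x y : Fin (k + 1) → Set V) =
        tp F r (Fin.snoc x' y' : Fin (k + 1) → Set W)) ∧
      (∀ y', ∃ y, tp E r (Fin.snoc x y : Fin (k + 1) → Set V) =
        tp F r (Fin.snoc x' y' : Fin (k + 1) → Set W)) := by
  show ({τ | ∃ y : Set V, τ = tp E r (Fin.snoc x y : Fin (k + 1) → Set V)} :
    Set (Tp r (k + 1))) = {τ | ∃ y : Set W, τ = tp F r (Fin.snoc x' y : Fin (k + 1) → Set W)} ↔ _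
  rw [Set.ext_iff]
  constructor
  · intro h
    constructor
    · intro y
      exact (h _).1 ⟨y, rfl⟩
    · intro y'
      obtain ⟨y, hy⟩ := (h _).2 ⟨y', rfl⟩
      exact ⟨y, hy.symm⟩
  · rintro ⟨h1, h2⟩ τ
    constructor
    · rintro ⟨y, rfl⟩
      exact h1 y
    · rintro ⟨y', rfl⟩
      obtain ⟨y, hy⟩ := h2 y'
      exact ⟨y, hy.symm⟩

theorem tr_snoc {V : Type} {k : ℕ} (x : Fin k → Set V) (y : Set V) (s : V) :
    (fun i : Fin k => tr (Fin.snoc x y : Fin (k + 1) → Set V) s i.castSucc) = tr x s := by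
  funext i
  unfold tr
  rw [Fin.snoc_castSucc]

theorem tp_zero_of_succ {k : ℕ} (x : Fin k → Set V) (x' : Fin k → Set W)
    (h : tp E 1 x = tp F 1 x') : tp E 0 x = tp F 0 x' := by
  have key : ∀ {V W : Type} (E : V → V → Prop) (F : W → W → Prop) (x : Fin k → Set V)
      (x' : Fin k → Set W), tp E 1 x = tp F 1 x' →
      ∀ p, (∃ s t, (s = t ∨ E s t) ∧ p = (tr x s, tr x t)) →
      (∃ s t, (s = t ∨ F s t) ∧ p = (tr x' s, tr x' t)) := by
    intro V W E F x x' h p hp
    obtain ⟨s, t, hst, rfl⟩ := hp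
    obtain ⟨y', hy'⟩ := ((tp_eq_succ x x').1 h).1 ∅
    obtain ⟨s', t', hst', he⟩ := ((tp_eq_zero _ _).1 hy' (tr (Fin.snoc x ∅ : Fin (k + 1) → Set V) s,
        tr (Fin.snoc x ∅ : Fin (k + 1) → Set V) t)).1 ⟨s, t, hst, rfl⟩
    refine ⟨s', t', hst', ?_⟩
    rw [Prod.mk.injEq] at he ⊢
    constructor
    · rw [← tr_snoc x ∅ s, ← tr_snoc x' y' s', he.1]
    · rw [← tr_snoc x ∅ t, ← tr_snoc x' y' t', he.2]
  rw [tp_eq_zero]
  exact fun p => ⟨key E F x x' h p, key F E x' x h.symm p⟩

theorem tp_of_succ (r : ℕ) : ∀ {k : ℕ} (x : Fin k → Set V) (x' : Fin k → Set W),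
    tp E (r + 1) x = tp F (r + 1) x' → tp E r x = tp F r x' := by
  induction r with
  | zero => intro k x x' h; exact tp_zero_of_succ x x' h
  | succ r ih =>
    intro k x x' h
    rw [tp_eq_succ] at h ⊢
    constructor
    · intro y
      obtain ⟨y', hy'⟩ := h.1 y
      exact ⟨y', ih _ _ hy'⟩
    · intro y'
      obtain ⟨y, hy⟩ := h.2 y'
      exact ⟨y, ih _ _ hy⟩

theorem tp_of_le {r r' : ℕ} (hr : r ≤ r') {k : ℕ} (x : Fin k → Set V) (x' : Fin k → Set W)
    (h : tp E r' x = tp F r' x') : tp E r x = tp F r x' := by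
  induction r', hr using Nat.le_induction with
  | base => exact h
  | succ n _ ih => exact ih (tp_of_succ n x x' h)

end two

/-! ### formulas only see types -/

/-- evaluation of a term at a trace -/
def tev {k : ℕ} : Lca.Term (Fin k) → (Fin k → Prop) → Prop
  | .var i, σ => σ i
  | .func (l := _) CAFun.zero _, _ => False
  | .func (l := _) CAFun.one _, _ => True
  | .func (l := _) CAFun.compl ts, σ => ¬ tev (ts 0) σ
  | .func (l := _) CAFun.meet ts, σ => tev (ts 0) σ ∧ tev (ts 1) σ
  | .func (l := _) CAFun.join ts, σ => tev (ts 0) σ ∨ tev (ts 1) σ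

theorem tev_spec {V : Type} (E : V → V → Prop) {k : ℕ} (t : Lca.Term (Fin k))
    (x : Fin k → Set V) (s : V) :
    s ∈ (@Language.Term.realize Lca (Set V) (graphStr E) _ x t) ↔ tev t (tr x s) := by
  letI := graphStr E
  induction t with
  | var i => exact Iff.rfl
  | func f ts ih =>
    cases f with
    | zero => exact Iff.rfl
    | one => exact Iff.rfl
    | compl =>
      show s ∉ _ ↔ ¬ _
      exact not_congr (ih 0)
    | meet =>
      show (s ∈ _ ∧ s ∈ _) ↔ (_ ∧ _)
      exact and_congr (ih 0) (ih 1)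
    | join =>
      show (s ∈ _ ∨ s ∈ _) ↔ (_ ∨ _)
      exact or_congr (ih 0) (ih 1)

/-- the combined tuple of free and bound variables -/
def comb {n m : ℕ} {V : Type} (v : Fin n → Set V) (xs : Fin m → Set V) : Fin (n + m) → Set V :=
  Fin.append v xs

theorem comb_snoc {n m : ℕ} {V : Type} (v : Fin n → Set V) (xs : Fin m → Set V) (y : Set V) :
    (comb v (Fin.snoc xs y : Fin (m + 1) → Set V) : Fin (n + (m + 1)) → Set V) =
      (Fin.snoc (comb v xs) y : Fin (n + m + 1) → Set V) := by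
  unfold comb
  funext i
  refine Fin.lastCases ?_ (fun j => ?_) i
  · have e1 : Fin.append v (Fin.snoc xs y : Fin (m + 1) → Set V)
        (Fin.natAdd n (Fin.last m)) = y := by
      rw [Fin.append_right, Fin.snoc_last]
    have e2 : (Fin.snoc (Fin.append v xs) y : Fin (n + m + 1) → Set V) (Fin.last (n + m)) = y := by
      rw [Fin.snoc_last]
    exact e1.trans e2.symm
  · refine Eq.trans ?_ (Fin.snoc_castSucc (α := fun _ => Set V) y (Fin.append v xs) j).symm
    refine Fin.addCases (fun l => ?_) (fun l => ?_) j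
    · have : (Fin.castSucc (Fin.castAdd m l) : Fin (n + m + 1)) = Fin.castAdd (m + 1) l := rfl
      rw [this, Fin.append_left, Fin.append_left]
    · have : (Fin.castSucc (Fin.natAdd n l) : Fin (n + m + 1)) = Fin.natAdd n l.castSucc := rfl
      rw [this, Fin.append_right, Fin.append_right, Fin.snoc_castSucc]

/-- relabelling of terms -/
def rl {n m : ℕ} : Fin n ⊕ Fin m → Fin (n + m) := Sum.elim (Fin.castAdd m) (Fin.natAdd n)

theorem realize_rl {V : Type} (E : V → V → Prop) {n m : ℕ} (t : Lca.Term (Fin n ⊕ Fin m))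
    (v : Fin n → Set V) (xs : Fin m → Set V) :
    (@Language.Term.realize Lca (Set V) (graphStr E) _ (Sum.elim v xs) t) =
      @Language.Term.realize Lca (Set V) (graphStr E) _ (comb v xs) (t.relabel rl) := by
  letI := graphStr E
  rw [Language.Term.realize_relabel]
  congr 1
  funext i
  rcases i with i | i
  · simp [comb, rl, Fin.append_left]
  · simp [comb, rl, Fin.append_right]

theorem formula_tp {n m : ℕ} (ψ : Lca.BoundedFormula (Fin n) m) : ∃ r : ℕ,
    ∀ (V W : Type) (E : V → V → Prop) (F : W → W → Prop) (v : Fin n → Set V)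
      (xs : Fin m → Set V) (v' : Fin n → Set W) (xs' : Fin m → Set W),
      tp E r (comb v xs) = tp F r (comb v' xs') →
      ((@Language.BoundedFormula.Realize Lca (Set V) (graphStr E) _ _ ψ v xs) ↔
        @Language.BoundedFormula.Realize Lca (Set W) (graphStr F) _ _ ψ v' xs') := by
  induction ψ with
  | falsum => exact ⟨0, fun _ _ _ _ _ _ _ _ _ => Iff.rfl⟩
  | equal t₁ t₂ =>
    refine ⟨0, ?_⟩
    have key : ∀ (V W : Type) (E : V → V → Prop) (F : W → W → Prop) (v : Fin n → Set V)
      (xs : Fin _ → Set V) (v' : Fin n → Set W) (xs' : Fin _ → Set W),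
      tp E 0 (comb v xs) = tp F 0 (comb v' xs') →
      (@Language.Term.realize Lca (Set V) (graphStr E) _ (Sum.elim v xs) t₁ =
        @Language.Term.realize Lca (Set V) (graphStr E) _ (Sum.elim v xs) t₂) →
      (@Language.Term.realize Lca (Set W) (graphStr F) _ (Sum.elim v' xs') t₁ =
        @Language.Term.realize Lca (Set W) (graphStr F) _ (Sum.elim v' xs') t₂) := by
      intro V W E F v xs v' xs' htp h
      rw [realize_rl, realize_rl] at h
      rw [realize_rl, realize_rl]
      ext s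
      rw [tev_spec, tev_spec]
      obtain ⟨s₀, t₀, _, he⟩ := ((tp_eq_zero _ _).1 htp
        (tr (comb v' xs') s, tr (comb v' xs') s)).2 ⟨s, s, Or.inl rfl, rfl⟩
      rw [Prod.mk.injEq] at he
      rw [he.1, ← tev_spec E, ← tev_spec E, h]
    intro V W E F v xs v' xs' htp
    exact ⟨key V W E F v xs v' xs' htp, key W V F E v' xs' v xs htp.symm⟩
  | rel R ts =>
    refine ⟨0, ?_⟩
    have key : ∀ (V W : Type) (E : V → V → Prop) (F : W → W → Prop) (v : Fin n → Set V)
      (xs : Fin _ → Set V) (v' : Fin n → Set W) (xs' : Fin _ → Set W),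
      tp E 0 (comb v xs) = tp F 0 (comb v' xs') →
      (@Language.BoundedFormula.Realize Lca (Set V) (graphStr E) _ _
        (Language.BoundedFormula.rel R ts) v xs) →
      (@Language.BoundedFormula.Realize Lca (Set W) (graphStr F) _ _
        (Language.BoundedFormula.rel R ts) v' xs') := by
      intro V W E F v xs v' xs' htp h
      cases R with
      | contact =>
        obtain ⟨s, hs, t, ht, hst⟩ := h
        have hs' : s ∈ (@Language.Term.realize Lca (Set V) (graphStr E) _ (Sum.elim v xs) (ts 0)) :=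
          hs
        have ht' : t ∈ (@Language.Term.realize Lca (Set V) (graphStr E) _ (Sum.elim v xs) (ts 1)) :=
          ht
        rw [realize_rl, tev_spec] at hs' ht'
        obtain ⟨s₀, t₀, hst₀, he⟩ := ((tp_eq_zero _ _).1 htp
          (tr (comb v xs) s, tr (comb v xs) t)).1 ⟨s, t, hst, rfl⟩
        rw [Prod.mk.injEq] at he
        rw [he.1] at hs'
        rw [he.2] at ht'
        refine ⟨s₀, ?_, t₀, ?_, hst₀⟩
        · show s₀ ∈ (@Language.Term.realize Lca (Set W) (graphStr F) _ (Sum.elim v' xs') (ts 0))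
          rw [realize_rl, tev_spec]; exact hs'
        · show t₀ ∈ (@Language.Term.realize Lca (Set W) (graphStr F) _ (Sum.elim v' xs') (ts 1))
          rw [realize_rl, tev_spec]; exact ht'
    intro V W E F v xs v' xs' htp
    exact ⟨key V W E F v xs v' xs' htp, key W V F E v' xs' v xs htp.symm⟩
  | imp φ ψ h₁ h₂ =>
    obtain ⟨r₁, h₁⟩ := h₁
    obtain ⟨r₂, h₂⟩ := h₂
    refine ⟨max r₁ r₂, ?_⟩
    intro V W E F v xs v' xs' htp
    exact imp_congr
      (h₁ V W E F v xs v' xs' (tp_of_le (le_max_left _ _) _ _ htp))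
      (h₂ V W E F v xs v' xs' (tp_of_le (le_max_right _ _) _ _ htp))
  | all φ h =>
    obtain ⟨r, h⟩ := h
    refine ⟨r + 1, ?_⟩
    have key : ∀ (V W : Type) (E : V → V → Prop) (F : W → W → Prop) (v : Fin n → Set V)
      (xs : Fin _ → Set V) (v' : Fin n → Set W) (xs' : Fin _ → Set W),
      tp E (r + 1) (comb v xs) = tp F (r + 1) (comb v' xs') →
      (@Language.BoundedFormula.Realize Lca (Set V) (graphStr E) _ _ φ.all v xs) →
      (@Language.BoundedFormula.Realize Lca (Set W) (graphStr F) _ _ φ.all v' xs') := by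
      intro V W E F v xs v' xs' htp hall y'
      obtain ⟨y, hy⟩ := ((tp_eq_succ _ _).1 htp).2 y'
      rw [← comb_snoc, ← comb_snoc] at hy
      exact (h V W E F v _ v' _ hy).1 (hall y)
    intro V W E F v xs v' xs' htp
    exact ⟨key V W E F v xs v' xs' htp, key W V F E v' xs' v xs htp.symm⟩

/-! ### disjoint unions -/

section sigma

variable {I : Type} {V W : I → Type} (E : ∀ i, V i → V i → Prop) (F : ∀ i, W i → W i → Prop)

/-- the disjoint union of graphs -/
def sE : (Σ i, V i) → (Σ i, V i) → Prop := fun s t => ∃ h : s.1 = t.1, E t.1 (h ▸ s.2) t.2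

/-- the restriction of a tuple to a block -/
def blk {k : ℕ} (x : Fin k → Set (Σ i, V i)) (i : I) : Fin k → Set (V i) :=
  fun l => {s | (⟨i, s⟩ : Σ i, V i) ∈ x l}

theorem blk_snoc {k : ℕ} (x : Fin k → Set (Σ i, V i)) (y : Set (Σ i, V i)) (i : I) :
    blk (Fin.snoc x y : Fin (k + 1) → Set (Σ i, V i)) i =
      Fin.snoc (blk x i) {s | (⟨i, s⟩ : Σ i, V i) ∈ y} := by
  funext l
  refine Fin.lastCases ?_ (fun j => ?_) l
  · rw [Fin.snoc_last]
    unfold blk
    rw [Fin.snoc_last]
  · rw [Fin.snoc_castSucc]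
    unfold blk
    rw [Fin.snoc_castSucc]

theorem tp_sigma (r : ℕ) : ∀ {k : ℕ} (x : Fin k → Set (Σ i, V i)) (x' : Fin k → Set (Σ i, W i)),
    (∀ i, tp (E i) r (blk x i) = tp (F i) r (blk x' i)) → tp (sE E) r x = tp (sE F) r x' := by
  have key0 : ∀ {V W : I → Type} (E : ∀ i, V i → V i → Prop) (F : ∀ i, W i → W i → Prop) {k : ℕ}
      (x : Fin k → Set (Σ i, V i)) (x' : Fin k → Set (Σ i, W i)),
      (∀ i, tp (E i) 0 (blk x i) = tp (F i) 0 (blk x' i)) →
      ∀ p, (∃ s t, (s = t ∨ sE E s t) ∧ p = (tr x s, tr x t)) →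
      (∃ s t, (s = t ∨ sE F s t) ∧ p = (tr x' s, tr x' t)) := by
    intro V W E F k x x' h p hp
    obtain ⟨⟨i, s⟩, ⟨j, t⟩, hst, rfl⟩ := hp
    have hij : i = j := by
      rcases hst with hst | ⟨h1, _⟩
      · exact congrArg Sigma.fst hst
      · exact h1
    subst hij
    obtain ⟨s', t', hst', he⟩ := ((tp_eq_zero _ _).1 (h i)
      (tr (blk x i) s, tr (blk x i) t)).1 (by
        refine ⟨s, t, ?_, rfl⟩
        rcases hst with hst | ⟨_, h2⟩
        · left
          simpa using hst
        · right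
          exact h2)
    refine ⟨⟨i, s'⟩, ⟨i, t'⟩, ?_, ?_⟩
    · rcases hst' with rfl | h2
      · left; rfl
      · right; exact ⟨rfl, h2⟩
    · exact he
  induction r with
  | zero =>
    intro k x x' h
    rw [tp_eq_zero]
    exact fun p => ⟨key0 E F x x' h p, key0 F E x' x (fun i => (h i).symm) p⟩
  | succ r ih =>
    intro k x x' h
    rw [tp_eq_succ]
    constructor
    · intro y
      have h1 : ∀ i, ∃ y' : Set (W i), tp (E i) r (blk (Fin.snoc x y : Fin (k + 1) → _) i) =
          tp (F i) r (Fin.snoc (blk x' i) y') := by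
        intro i
        rw [blk_snoc]
        exact ((tp_eq_succ _ _).1 (h i)).1 _
      choose y' hy' using h1
      refine ⟨{s | s.2 ∈ y' s.1}, ih _ _ fun i => ?_⟩
      rw [hy' i, blk_snoc]
      rfl
    · intro y'
      have h1 : ∀ i, ∃ y : Set (V i), tp (E i) r (Fin.snoc (blk x i) y) =
          tp (F i) r (blk (Fin.snoc x' y' : Fin (k + 1) → _) i) := by
        intro i
        rw [blk_snoc]
        exact ((tp_eq_succ _ _).1 (h i)).2 _
      choose y hy using h1
      refine ⟨{s | s.2 ∈ y s.1}, ih _ _ fun i => ?_⟩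
      rw [← hy i, blk_snoc]
      rfl

end sigma

end Pool.Agent.V11251.CA
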